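import Pool.Agent.Helper17.SA.St

/-!
# Project SA, module UB2: second moment correction for `p = 2`
-/

set_option autoImplicit false

namespace Pool.Agent.Helper74.SA

open Equiv Pool.Agent.Helper17.SA

section count

variable {m : ℕ}

theorem card_conj_le (k : ℕ) (hk : 1 ≤ k) (y z : Perm (Fin m))
    (hy : y.cycleType = Multiset.replicate k 2) :
    (Finset.univ.filter (fun x : Perm (Fin m) => x * y * x⁻¹ = z)).card ≤
      (m - 2 * k).factorial * 2 ^ k * k.factorial := by
  classical
  have hcent : Nat.card (Subgroup.centralizer {y}) =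
      (m - 2 * k).factorial * 2 ^ k * k.factorial := by
    rw [Perm.nat_card_centralizer, hy]
    have h1 : (Multiset.replicate k 2).toFinset = {2} := by
      ext n
      simp only [Multiset.mem_toFinset, Multiset.mem_replicate, Finset.mem_singleton]
      exact ⟨fun h => h.2, fun h => ⟨by omega, h⟩⟩
    rw [h1, Finset.prod_singleton, Multiset.count_replicate_self, Multiset.sum_replicate,
      Multiset.prod_replicate, Fintype.card_fin, smul_eq_mul, mul_comm k 2]
  rw [← hcent]
  rcases Finset.eq_empty_or_nonempty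
    (Finset.univ.filter (fun x : Perm (Fin m) => x * y * x⁻¹ = z)) with h | ⟨x0, hx0⟩
  · rw [h]; simp
  · have hx0' := (Finset.mem_filter.1 hx0).2
    rw [← Fintype.card_coe, ← Nat.card_eq_fintype_card]
    have hmem : ∀ x ∈ Finset.univ.filter (fun x : Perm (Fin m) => x * y * x⁻¹ = z),
        x0⁻¹ * x ∈ Subgroup.centralizer {y} := by
      intro x hx
      replace hx := (Finset.mem_filter.1 hx).2
      rw [Subgroup.mem_centralizer_singleton_iff]
      have h2 : x * y = z * x := by rw [← hx]; group
      have h3 : x0⁻¹ * z = y * x0⁻¹ := by rw [← hx0']; group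
      rw [mul_assoc, h2, ← mul_assoc, h3, mul_assoc]
    apply Nat.card_le_card_of_injective
      (fun x => (⟨x0⁻¹ * x.1, hmem x.1 x.2⟩ : Subgroup.centralizer {y}))
    intro x x' h
    have h4 := congrArg Subtype.val h
    exact Subtype.ext (mul_left_cancel h4)

/-- the number of elements of `H` of a given type -/
theorem cc_eq (H : Subgroup (Perm (Fin m))) (k : ℕ) [DecidablePred (· ∈ H)] :
    cc H 2 k = (Finset.univ.filter (fun z : Perm (Fin m) =>
      z ∈ H ∧ z.cycleType = Multiset.replicate k 2)).card := by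
  classical
  unfold cc
  rw [Nat.card_eq_fintype_card, Fintype.card_subtype]

theorem sum_conj_le (H : Subgroup (Perm (Fin m))) [DecidablePred (· ∈ H)] (k : ℕ) (hk : 1 ≤ k)
    (y : Perm (Fin m)) (hy : y.cycleType = Multiset.replicate k 2) :
    (Finset.univ.filter (fun x : Perm (Fin m) => x * y * x⁻¹ ∈ H)).card ≤
      ((m - 2 * k).factorial * 2 ^ k * k.factorial) * cc H 2 k := by
  classical
  rw [cc_eq]
  apply Finset.card_le_mul_card_image_of_maps_to (f := fun x => x * y * x⁻¹)
  · intro x hx
    refine Finset.mem_filter.2 ⟨Finset.mem_univ _, (Finset.mem_filter.1 hx).2, ?_⟩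
    rw [← hy, Perm.cycleType_conj]
  · intro z hz
    refine le_trans (Finset.card_le_card ?_) (card_conj_le k hk y z hy)
    intro x hx
    exact Finset.mem_filter.2 ⟨Finset.mem_univ _, (Finset.mem_filter.1 hx).2⟩

theorem type_of_inv (y : Perm (Fin m)) (h1 : y ≠ 1) (h2 : y * y = 1) :
    ∃ k, k ∈ Finset.Icc 1 (m / 2) ∧ y.cycleType = Multiset.replicate k 2 := by
  have : Fact (Nat.Prime 2) := ⟨Nat.prime_two⟩
  have h3 := Perm.cycleType_of_pow_prime_eq_one (p := 2) (σ := y) (by rw [pow_two, h2])
  refine ⟨_, ?_, h3⟩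
  have h4 : 0 < Multiset.card y.cycleType := Perm.card_cycleType_pos.2 h1
  have h5 := Perm.sum_cycleType_le y
  rw [h3, Multiset.sum_replicate, Fintype.card_fin, smul_eq_mul] at h5
  rw [Finset.mem_Icc]
  omega

theorem first_moment (H : Subgroup (Perm (Fin m))) [DecidablePred (· ∈ H)] :
    ∑ x : Perm (Fin m), ((Finset.univ.filter (fun y : Perm (Fin m) =>
      y ∈ H ∧ y ≠ 1 ∧ y * y = 1)).filter (fun y => x * y * x⁻¹ ∈ H)).card ≤
      ∑ k ∈ Finset.Icc 1 (m / 2), (cc H 2 k) ^ 2 * (m - 2 * k).factorial * 2 ^ k * k.factorial := by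
  classical
  set Iv := Finset.univ.filter (fun y : Perm (Fin m) => y ∈ H ∧ y ≠ 1 ∧ y * y = 1) with hIv
  have h1 : ∑ x : Perm (Fin m), (Iv.filter (fun y => x * y * x⁻¹ ∈ H)).card =
      ∑ y ∈ Iv, (Finset.univ.filter (fun x : Perm (Fin m) => x * y * x⁻¹ ∈ H)).card := by
    simp only [Finset.card_filter]
    rw [Finset.sum_comm]
  rw [h1]
  have hk : ∀ y ∈ Iv, y.cycleType.card ∈ Finset.Icc 1 (m / 2) ∧
      y.cycleType = Multiset.replicate y.cycleType.card 2 := by
    intro y hy
    obtain ⟨-, -, h2, h3⟩ := Finset.mem_filter.1 hy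
    obtain ⟨k, hk, hk2⟩ := type_of_inv y h2 h3
    have : y.cycleType.card = k := by rw [hk2, Multiset.card_replicate]
    rw [this]
    exact ⟨hk, hk2⟩
  rw [← Finset.sum_fiberwise_of_maps_to (fun y hy => (hk y hy).1)]
  apply Finset.sum_le_sum
  intro k hk1
  have hk1' := (Finset.mem_Icc.1 hk1).1
  calc _ ≤ ∑ y ∈ Iv with y.cycleType.card = k,
        ((m - 2 * k).factorial * 2 ^ k * k.factorial) * cc H 2 k := by
        apply Finset.sum_le_sum
        intro y hy
        obtain ⟨hy1, hy2⟩ := Finset.mem_filter.1 hy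
        apply sum_conj_le H k hk1' y
        rw [← hy2]
        exact (hk y hy1).2
    _ = (Iv.filter (fun y => y.cycleType.card = k)).card *
        (((m - 2 * k).factorial * 2 ^ k * k.factorial) * cc H 2 k) := by
        rw [Finset.sum_const, smul_eq_mul]
    _ ≤ cc H 2 k * (((m - 2 * k).factorial * 2 ^ k * k.factorial) * cc H 2 k) := by
        apply Nat.mul_le_mul_right
        rw [cc_eq]
        apply Finset.card_le_card
        intro y hy
        obtain ⟨hy1, hy2⟩ := Finset.mem_filter.1 hy
        refine Finset.mem_filter.2 ⟨Finset.mem_univ _, (Finset.mem_filter.1 hy1).2.1, ?_⟩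
        rw [← hy2]
        exact (hk y hy1).2
    _ = _ := by ring

theorem swap_eq_of_ne (y : Perm (Fin m)) (s : y.IsSwap) (x : Fin m) (hx : y x ≠ x) :
    y = swap x (y x) := by
  obtain ⟨a, b, hab, rfl⟩ := s
  rcases (swap_apply_ne_self_iff.1 hx) with ⟨_, rfl | rfl⟩
  · rw [swap_apply_left]
  · rw [swap_apply_right, swap_comm]

theorem swap_sq (y : Perm (Fin m)) (s : y.IsSwap) : y * y = 1 := by
  obtain ⟨a, b, hab, rfl⟩ := s
  exact swap_mul_self a b

/-- the transpositions of a `2`-group are disjoint -/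
theorem disj_swaps {H : Subgroup (Perm (Fin m))} (hH : IsPGroup 2 H) (y1 y2 : Perm (Fin m))
    (h1 : y1 ∈ H) (h2 : y2 ∈ H) (s1 : y1.IsSwap) (s2 : y2.IsSwap) (hne : y1 ≠ y2) :
    y1.Disjoint y2 := by
  intro x
  by_contra hcon
  push Not at hcon
  obtain ⟨hx1, hx2⟩ := hcon
  have e1 := swap_eq_of_ne y1 s1 x hx1
  have e2 := swap_eq_of_ne y2 s2 x hx2
  have hne' : y1 x ≠ y2 x := by
    intro h
    apply hne
    rw [e1, e2]
    congr 1
  have h3 : (swap x (y1 x) * swap x (y2 x)).IsThreeCycle :=
    Perm.isThreeCycle_swap_mul_swap_same hx1.symm hx2.symm hne'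
  rw [← e1, ← e2] at h3
  have h4 := h3.orderOf
  obtain ⟨k, hk⟩ := hH ⟨y1 * y2, H.mul_mem h1 h2⟩
  have hk' : (y1 * y2) ^ 2 ^ k = 1 := congrArg Subtype.val hk
  have h5 := orderOf_dvd_of_pow_eq_one hk'
  rw [h4] at h5
  have h6 := Nat.Prime.dvd_of_dvd_pow Nat.prime_three h5
  norm_num at h6

theorem pow_le (K : Subgroup (Perm (Fin m))) [DecidablePred (· ∈ K)] :
    ∀ E : Finset (Perm (Fin m)), (∀ e ∈ E, e ∈ K ∧ e.IsSwap) →
    (∀ e ∈ E, ∀ e' ∈ E, e ≠ e' → e.Disjoint e') →
    2 ^ E.card ≤ (Finset.univ.filter (fun y : Perm (Fin m) =>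
      y ∈ K ∧ y * y = 1 ∧ ∀ a, y a ≠ a → ∃ e ∈ E, e a ≠ a)).card := by
  classical
  intro E
  induction E using Finset.induction_on with
  | empty =>
    intro _ _
    rw [Finset.card_empty, pow_zero]
    apply Finset.card_pos.2
    exact ⟨1, Finset.mem_filter.2 ⟨Finset.mem_univ _, K.one_mem, mul_one 1,
      fun a ha => (ha rfl).elim⟩⟩
  | insert e E he ih =>
    intro hE hd
    have ih' := ih (fun e' he' => hE e' (Finset.mem_insert_of_mem he'))
      (fun a ha b hb => hd a (Finset.mem_insert_of_mem ha) b (Finset.mem_insert_of_mem hb))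
    set Z := Finset.univ.filter (fun y : Perm (Fin m) =>
      y ∈ K ∧ y * y = 1 ∧ ∀ a, y a ≠ a → ∃ e ∈ E, e a ≠ a) with hZ
    have heK := (hE e (Finset.mem_insert_self _ _)).1
    have hes := (hE e (Finset.mem_insert_self _ _)).2
    have hdis : ∀ y ∈ Z, e.Disjoint y := by
      intro y hy a
      obtain ⟨-, -, -, h⟩ := Finset.mem_filter.1 hy
      by_cases hya : y a = a
      · exact Or.inr hya
      · obtain ⟨e', he', hea⟩ := h a hya
        have hne : e ≠ e' := fun h => he (h ▸ he')
        rcases hd e (Finset.mem_insert_self _ _) e' (Finset.mem_insert_of_mem he') hne a with h | h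
        · exact Or.inl h
        · exact (hea h).elim
    have hinj : Function.Injective (fun y : Perm (Fin m) => e * y) := fun a b h =>
      mul_left_cancel h
    have hdisj : Disjoint Z (Z.image (fun y => e * y)) := by
      rw [Finset.disjoint_left]
      intro y' hy' hy''
      obtain ⟨y, hy, rfl⟩ := Finset.mem_image.1 hy''
      obtain ⟨a, b, hab, heab⟩ := hes
      have hea : e a ≠ a := by rw [heab, swap_apply_left]; exact hab.symm
      have h1 : y a = a := (hdis y hy a).resolve_left hea
      have h2 : (e * y) a = a := (hdis _ hy' a).resolve_left hea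
      rw [Perm.mul_apply, h1] at h2
      exact hea h2
    calc 2 ^ (insert e E).card = 2 * 2 ^ E.card := by
          rw [Finset.card_insert_of_notMem he, pow_succ, mul_comm]
      _ ≤ 2 * Z.card := Nat.mul_le_mul_left _ ih'
      _ = (Z ∪ Z.image (fun y => e * y)).card := by
          rw [Finset.card_union_of_disjoint hdisj, Finset.card_image_of_injective _ hinj]
          ring
      _ ≤ _ := by
          apply Finset.card_le_card
          intro y hy
          rcases Finset.mem_union.1 hy with hy | hy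
          · obtain ⟨-, h1, h2, h3⟩ := Finset.mem_filter.1 hy
            refine Finset.mem_filter.2 ⟨Finset.mem_univ _, h1, h2, fun a ha => ?_⟩
            obtain ⟨e', he', hea⟩ := h3 a ha
            exact ⟨e', Finset.mem_insert_of_mem he', hea⟩
          · obtain ⟨y0, hy0, rfl⟩ := Finset.mem_image.1 hy
            have hc := (hdis y0 hy0).commute
            obtain ⟨-, h1, h2, h3⟩ := Finset.mem_filter.1 hy0
            refine Finset.mem_filter.2 ⟨Finset.mem_univ _, K.mul_mem heK h1, ?_, fun a ha => ?_⟩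
            · show (e * y0) * (e * y0) = 1
              rw [mul_assoc, ← mul_assoc y0 e y0, ← hc.eq, mul_assoc e y0 y0, h2, mul_one,
                swap_sq e hes]
            · by_cases hya : y0 a = a
              · refine ⟨e, Finset.mem_insert_self _ _, ?_⟩
                intro hea
                apply ha
                show e (y0 a) = a
                rw [hya, hea]
              · obtain ⟨e', he', hea⟩ := h3 a hya
                exact ⟨e', Finset.mem_insert_of_mem he', hea⟩

theorem two_pow_ge (E : ℕ) (hE : 1 ≤ E) : E * (E - 1) + 2 ≤ 2 ^ E := by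
  induction E, hE using Nat.le_induction with
  | base => norm_num
  | succ E hE ih =>
    obtain ⟨F, rfl⟩ := Nat.exists_eq_add_of_le' hE
    rw [pow_succ]
    simp only [Nat.add_sub_cancel] at ih ⊢
    have := Nat.le_mul_self F
    nlinarith

open Classical in
/-- the pointwise estimate -/
theorem pointwise (H : Subgroup (Perm (Fin m))) (hH : IsPGroup 2 H)
    (x : Perm (Fin m)) :
    (if Bad H x then 1 else 0) +
      ((Finset.univ.filter (fun y : Perm (Fin m) =>
        y ∈ H ∧ y.cycleType = Multiset.replicate 1 2)).filter (fun y => x * y * x⁻¹ ∈ H)).card *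
      (((Finset.univ.filter (fun y : Perm (Fin m) =>
        y ∈ H ∧ y.cycleType = Multiset.replicate 1 2)).filter (fun y => x * y * x⁻¹ ∈ H)).card - 1)
      ≤ ((Finset.univ.filter (fun y : Perm (Fin m) =>
        y ∈ H ∧ y ≠ 1 ∧ y * y = 1)).filter (fun y => x * y * x⁻¹ ∈ H)).card := by
  set E := ((Finset.univ.filter (fun y : Perm (Fin m) =>
        y ∈ H ∧ y.cycleType = Multiset.replicate 1 2)).filter (fun y => x * y * x⁻¹ ∈ H)) with hE
  set N := ((Finset.univ.filter (fun y : Perm (Fin m) =>
        y ∈ H ∧ y ≠ 1 ∧ y * y = 1)).filter (fun y => x * y * x⁻¹ ∈ H)) with hN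
  let K : Subgroup (Perm (Fin m)) := H ⊓ H.comap (MulAut.conj x).toMonoidHom
  have hK : ∀ y, y ∈ K ↔ y ∈ H ∧ x * y * x⁻¹ ∈ H := fun y => Iff.rfl
  have hEs : ∀ e ∈ E, e ∈ K ∧ e.IsSwap := by
    intro e he
    obtain ⟨h1, h2⟩ := Finset.mem_filter.1 he
    obtain ⟨-, h3, h4⟩ := Finset.mem_filter.1 h1
    refine ⟨(hK e).2 ⟨h3, h2⟩, ?_⟩
    rw [Perm.isSwap_iff_cycleType, h4]
    rfl
  have hd : ∀ e ∈ E, ∀ e' ∈ E, e ≠ e' → e.Disjoint e' := by
    intro e he e' he' hne
    exact disj_swaps hH e e' ((hK e).1 (hEs e he).1).1 ((hK e').1 (hEs e' he').1).1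
      (hEs e he).2 (hEs e' he').2 hne
  have h1 := pow_le K E hEs hd
  set Z := Finset.univ.filter (fun y : Perm (Fin m) =>
      y ∈ K ∧ y * y = 1 ∧ ∀ a, y a ≠ a → ∃ e ∈ E, e a ≠ a) with hZ
  have h2 : Z.card ≤ N.card + 1 := by
    rw [← Finset.card_insert_of_notMem (s := N) (a := 1) (by
      intro h
      have := (Finset.mem_filter.1 (Finset.mem_filter.1 h).1).2.2.1
      exact this rfl)]
    apply Finset.card_le_card
    intro y hy
    obtain ⟨-, h3, h4, -⟩ := Finset.mem_filter.1 hy
    rw [Finset.mem_insert]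
    by_cases hy1 : y = 1
    · exact Or.inl hy1
    · right
      exact Finset.mem_filter.2 ⟨Finset.mem_filter.2 ⟨Finset.mem_univ _, ((hK y).1 h3).1, hy1,
        h4⟩, ((hK y).1 h3).2⟩
  rcases Nat.eq_zero_or_pos E.card with h0 | hpos
  · rw [h0, Nat.zero_mul, add_zero]
    split_ifs with hb
    · obtain ⟨y, hyH, hy1, hyx⟩ := hb
      -- an element of order two
      obtain ⟨k, hk⟩ := hH ⟨y, hyH⟩
      have hk' : y ^ 2 ^ k = 1 := congrArg Subtype.val hk
      have hex : ∃ k, y ^ 2 ^ k = 1 := ⟨k, hk'⟩
      have hspec := Nat.find_spec hex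
      have hf0 : Nat.find hex ≠ 0 := by
        intro h
        rw [h, pow_zero, pow_one] at hspec
        exact hy1 hspec
      obtain ⟨l, hl⟩ := Nat.exists_eq_succ_of_ne_zero hf0
      have hmin : ¬ y ^ 2 ^ l = 1 := Nat.find_min hex (by omega)
      rw [hl, Nat.succ_eq_add_one, pow_succ, pow_mul, pow_two] at hspec
      have hmem : y ^ 2 ^ l ∈ N := by
        refine Finset.mem_filter.2 ⟨Finset.mem_filter.2 ⟨Finset.mem_univ _,
          H.pow_mem hyH _, hmin, hspec⟩, ?_⟩
        have h3 : x * y ^ 2 ^ l * x⁻¹ = (x * y * x⁻¹) ^ 2 ^ l := by rw [conj_pow]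
        rw [h3]
        exact H.pow_mem hyx _
      exact Finset.card_pos.2 ⟨_, hmem⟩
    · exact Nat.zero_le _
  · have h3 := two_pow_ge E.card hpos
    split_ifs <;> omega

theorem four_fact_le (_hm : 4 ≤ m) (y1 y2 z1 z2 : Perm (Fin m)) (s1 : y1.IsSwap) (s2 : y2.IsSwap)
    (t1 : z1.IsSwap) (t2 : z2.IsSwap) (hy : y1.Disjoint y2) (hz : z1.Disjoint z2) :
    4 * (m - 4).factorial ≤ (Finset.univ.filter (fun x : Perm (Fin m) =>
      x * y1 * x⁻¹ = z1 ∧ x * y2 * x⁻¹ = z2)).card := by
  classical
  obtain ⟨a, b, hab, rfl⟩ := s1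
  obtain ⟨c, d, hcd, rfl⟩ := s2
  obtain ⟨a', b', hab', rfl⟩ := t1
  obtain ⟨c', d', hcd', rfl⟩ := t2
  have dist : ∀ a b c d : Fin m, a ≠ b → c ≠ d → (swap a b).Disjoint (swap c d) →
      a ≠ c ∧ a ≠ d ∧ b ≠ c ∧ b ≠ d := by
    intro a b c d hab hcd h
    refine ⟨?_, ?_, ?_, ?_⟩
    · rintro rfl
      rcases h a with h | h
      · rw [swap_apply_left] at h; exact hab h.symm
      · rw [swap_apply_left] at h; exact hcd h.symm
    · rintro rfl
      rcases h a with h | h
      · rw [swap_apply_left] at h; exact hab h.symm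
      · rw [swap_apply_right] at h; exact hcd h
    · rintro rfl
      rcases h b with h | h
      · rw [swap_apply_right] at h; exact hab h
      · rw [swap_apply_left] at h; exact hcd h.symm
    · rintro rfl
      rcases h b with h | h
      · rw [swap_apply_right] at h; exact hab h
      · rw [swap_apply_right] at h; exact hcd h
  obtain ⟨hac, had, hbc, hbd⟩ := dist a b c d hab hcd hy
  obtain ⟨hac', had', hbc', hbd'⟩ := dist a' b' c' d' hab' hcd' hz
  have hinj : ∀ a b c d : Fin m, a ≠ b → c ≠ d → a ≠ c → a ≠ d → b ≠ c → b ≠ d →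
      Function.Injective ![a, b, c, d] := by
    intro a b c d h1 h2 h3 h4 h5 h6 i j hij
    fin_cases i <;> fin_cases j <;> first
      | rfl
      | exact (h1 hij).elim
      | exact (h2 hij).elim
      | exact (h3 hij).elim
      | exact (h4 hij).elim
      | exact (h5 hij).elim
      | exact (h6 hij).elim
      | exact (h1 hij.symm).elim
      | exact (h2 hij.symm).elim
      | exact (h3 hij.symm).elim
      | exact (h4 hij.symm).elim
      | exact (h5 hij.symm).elim
      | exact (h6 hij.symm).elim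
  obtain ⟨x0, hx0⟩ := Perm.exists_extending_pair ![a, b, c, d] ![a', b', c', d']
    (hinj a b c d hab hcd hac had hbc hbd) (hinj a' b' c' d' hab' hcd' hac' had' hbc' hbd')
  have ha0 : x0 a = a' := hx0 0
  have hb0 : x0 b = b' := hx0 1
  have hc0 : x0 c = c' := hx0 2
  have hd0 : x0 d = d' := hx0 3
  let p : Fin m → Prop := fun i => i ∉ ({a, b, c, d} : Finset (Fin m))
  let Φ : Bool × Bool × Perm {i // p i} → Perm (Fin m) := fun q =>
    x0 * Perm.ofSubtype q.2.2 * (if q.1 then swap a b else 1) * (if q.2.1 then swap c d else 1)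
  have hfix : ∀ (f : Perm {i // p i}) (i : Fin m), i ∈ ({a, b, c, d} : Finset (Fin m)) →
      Perm.ofSubtype f i = i := by
    intro f i hi
    exact Perm.ofSubtype_apply_of_not_mem f (fun h => h hi)
  have hΦa : ∀ q, Φ q a = if q.1 then b' else a' := by
    rintro ⟨i, j, f⟩
    have h1 : (if j then swap c d else 1 : Perm (Fin m)) a = a := by
      split_ifs
      · exact swap_apply_of_ne_of_ne hac had
      · rfl
    show x0 (Perm.ofSubtype f ((if i then swap a b else 1 : Perm (Fin m))
      ((if j then swap c d else 1 : Perm (Fin m)) a))) = _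
    rw [h1]
    cases i
    · simp only [Bool.false_eq_true, if_false, Perm.one_apply]
      rw [hfix f a (by simp), ha0]
    · simp only [if_true, swap_apply_left]
      rw [hfix f b (by simp), hb0]
  have hΦb : ∀ q, Φ q b = if q.1 then a' else b' := by
    rintro ⟨i, j, f⟩
    have h1 : (if j then swap c d else 1 : Perm (Fin m)) b = b := by
      split_ifs
      · exact swap_apply_of_ne_of_ne hbc hbd
      · rfl
    show x0 (Perm.ofSubtype f ((if i then swap a b else 1 : Perm (Fin m))
      ((if j then swap c d else 1 : Perm (Fin m)) b))) = _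
    rw [h1]
    cases i
    · simp only [Bool.false_eq_true, if_false, Perm.one_apply]
      rw [hfix f b (by simp), hb0]
    · simp only [if_true, swap_apply_right]
      rw [hfix f a (by simp), ha0]
  have hΦc : ∀ q, Φ q c = if q.2.1 then d' else c' := by
    rintro ⟨i, j, f⟩
    show x0 (Perm.ofSubtype f ((if i then swap a b else 1 : Perm (Fin m))
      ((if j then swap c d else 1 : Perm (Fin m)) c))) = _
    cases j
    · have h1 : (if i then swap a b else 1 : Perm (Fin m)) c = c := by
        split_ifs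
        · exact swap_apply_of_ne_of_ne hac.symm hbc.symm
        · rfl
      simp only [Bool.false_eq_true, if_false, Perm.one_apply]
      rw [h1, hfix f c (by simp), hc0]
    · have h1 : (if i then swap a b else 1 : Perm (Fin m)) d = d := by
        split_ifs
        · exact swap_apply_of_ne_of_ne had.symm hbd.symm
        · rfl
      simp only [if_true, swap_apply_left]
      rw [h1, hfix f d (by simp), hd0]
  have hΦd : ∀ q, Φ q d = if q.2.1 then c' else d' := by
    rintro ⟨i, j, f⟩
    show x0 (Perm.ofSubtype f ((if i then swap a b else 1 : Perm (Fin m))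
      ((if j then swap c d else 1 : Perm (Fin m)) d))) = _
    cases j
    · have h1 : (if i then swap a b else 1 : Perm (Fin m)) d = d := by
        split_ifs
        · exact swap_apply_of_ne_of_ne had.symm hbd.symm
        · rfl
      simp only [Bool.false_eq_true, if_false, Perm.one_apply]
      rw [h1, hfix f d (by simp), hd0]
    · have h1 : (if i then swap a b else 1 : Perm (Fin m)) c = c := by
        split_ifs
        · exact swap_apply_of_ne_of_ne hac.symm hbc.symm
        · rfl
      simp only [if_true, swap_apply_right]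
      rw [h1, hfix f c (by simp), hc0]
  have hΦinj : Function.Injective Φ := by
    rintro ⟨i, j, f⟩ ⟨i', j', f'⟩ h
    have h1 := hΦa (i, j, f)
    rw [h, hΦa] at h1
    have h2 := hΦc (i, j, f)
    rw [h, hΦc] at h2
    have hi : i = i' := by
      cases i <;> cases i'
      · rfl
      · exact (hab' h1.symm).elim
      · exact (hab' h1).elim
      · rfl
    have hj : j = j' := by
      cases j <;> cases j'
      · rfl
      · exact (hcd' h2.symm).elim
      · exact (hcd' h2).elim
      · rfl
    subst hi hj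
    have h3 : x0 * Perm.ofSubtype f * (if i then swap a b else 1) * (if j then swap c d else 1) =
      x0 * Perm.ofSubtype f' * (if i then swap a b else 1) * (if j then swap c d else 1) := h
    have h4 := mul_left_cancel (mul_right_cancel (mul_right_cancel h3))
    rw [Perm.ofSubtype_injective h4]
  have hcard : Fintype.card {i // p i} = m - 4 := by
    have h1 : ({a, b, c, d} : Finset (Fin m)).card = 4 := by
      rw [Finset.card_insert_of_notMem (by simp [hab, hac, had]),
        Finset.card_insert_of_notMem (by simp [hbc, hbd]),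
        Finset.card_insert_of_notMem (by simp [hcd]), Finset.card_singleton]
    have h2 : Fintype.card {i // p i} = (({a, b, c, d} : Finset (Fin m))ᶜ).card := by
      rw [Fintype.card_subtype]
      congr 1
      ext i
      simp [p]
    rw [h2, Finset.card_compl, h1, Fintype.card_fin]
  have hconj : ∀ (x : Perm (Fin m)) (u v : Fin m), x * swap u v * x⁻¹ = swap (x u) (x v) := by
    intro x u v
    rw [mul_swap_eq_swap_mul, mul_assoc, mul_inv_cancel, mul_one]
  calc 4 * (m - 4).factorial = Fintype.card (Bool × Bool × Perm {i // p i}) := by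
        rw [Fintype.card_prod, Fintype.card_prod, Fintype.card_bool, Fintype.card_perm, hcard]
        ring
    _ = (Finset.univ.image Φ).card := by
        rw [Finset.card_image_of_injective _ hΦinj, Finset.card_univ]
    _ ≤ _ := by
        apply Finset.card_le_card
        intro x hx
        obtain ⟨q, -, rfl⟩ := Finset.mem_image.1 hx
        refine Finset.mem_filter.2 ⟨Finset.mem_univ _, ?_, ?_⟩
        · rw [hconj, hΦa, hΦb]
          split_ifs
          · exact swap_comm _ _
          · rfl
        · rw [hconj, hΦc, hΦd]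
          split_ifs
          · exact swap_comm _ _
          · rfl

open Classical in
theorem second_moment (hm : 4 ≤ m) (H : Subgroup (Perm (Fin m))) (hH : IsPGroup 2 H) :
    (cc H 2 1 * (cc H 2 1 - 1)) ^ 2 * 4 * (m - 4).factorial ≤
      ∑ x : Perm (Fin m), ((Finset.univ.filter (fun y : Perm (Fin m) =>
        y ∈ H ∧ y.cycleType = Multiset.replicate 1 2)).filter (fun y => x * y * x⁻¹ ∈ H)).card *
      (((Finset.univ.filter (fun y : Perm (Fin m) =>
        y ∈ H ∧ y.cycleType = Multiset.replicate 1 2)).filter (fun y => x * y * x⁻¹ ∈ H)).card - 1)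
      := by
  rw [cc_eq]
  set Sw := Finset.univ.filter (fun y : Perm (Fin m) =>
        y ∈ H ∧ y.cycleType = Multiset.replicate 1 2) with hSw
  have hoff : ∀ s : Finset (Perm (Fin m)), s.card * (s.card - 1) = s.offDiag.card := by
    intro s
    rw [Finset.offDiag_card, Nat.mul_sub, mul_one]
  have hsw : ∀ y ∈ Sw, y ∈ H ∧ y.IsSwap := by
    intro y hy
    obtain ⟨-, h1, h2⟩ := Finset.mem_filter.1 hy
    exact ⟨h1, by rw [Perm.isSwap_iff_cycleType, h2]; rfl⟩
  have h1 : ∀ x : Perm (Fin m), (Sw.filter (fun y => x * y * x⁻¹ ∈ H)).card *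
      ((Sw.filter (fun y => x * y * x⁻¹ ∈ H)).card - 1) =
      ∑ q ∈ Sw.offDiag, if x * q.1 * x⁻¹ ∈ H ∧ x * q.2 * x⁻¹ ∈ H then 1 else 0 := by
    intro x
    rw [hoff, ← Finset.card_filter]
    congr 1
    ext ⟨u, v⟩
    simp only [Finset.mem_offDiag, Finset.mem_filter]
    tauto
  simp only [h1]
  rw [Finset.sum_comm, hoff]
  have h2 : ∀ q ∈ Sw.offDiag, Sw.offDiag.card * (4 * (m - 4).factorial) ≤
      ∑ x : Perm (Fin m), if x * q.1 * x⁻¹ ∈ H ∧ x * q.2 * x⁻¹ ∈ H then 1 else 0 := by
    intro q hq
    obtain ⟨hq1, hq2, hq12⟩ := Finset.mem_offDiag.1 hq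
    rw [← Finset.card_filter]
    have hmaps : ∀ x ∈ (Finset.univ.filter (fun x : Perm (Fin m) =>
        x * q.1 * x⁻¹ ∈ H ∧ x * q.2 * x⁻¹ ∈ H)),
        (x * q.1 * x⁻¹, x * q.2 * x⁻¹) ∈ Sw.offDiag := by
      intro x hx
      obtain ⟨-, hx1, hx2⟩ := Finset.mem_filter.1 hx
      refine Finset.mem_offDiag.2 ⟨?_, ?_, ?_⟩
      · refine Finset.mem_filter.2 ⟨Finset.mem_univ _, hx1, ?_⟩
        rw [Perm.cycleType_conj]
        exact (Finset.mem_filter.1 hq1).2.2
      · refine Finset.mem_filter.2 ⟨Finset.mem_univ _, hx2, ?_⟩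
        rw [Perm.cycleType_conj]
        exact (Finset.mem_filter.1 hq2).2.2
      · intro h
        exact hq12 (mul_left_cancel (mul_right_cancel h))
    rw [Finset.card_eq_sum_card_fiberwise hmaps, ← smul_eq_mul, ← Finset.sum_const]
    apply Finset.sum_le_sum
    intro r hr
    obtain ⟨hr1, hr2, hr12⟩ := Finset.mem_offDiag.1 hr
    refine le_trans (four_fact_le hm q.1 q.2 r.1 r.2 (hsw _ hq1).2 (hsw _ hq2).2 (hsw _ hr1).2
      (hsw _ hr2).2 (disj_swaps hH _ _ (hsw _ hq1).1 (hsw _ hq2).1 (hsw _ hq1).2 (hsw _ hq2).2 hq12)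
      (disj_swaps hH _ _ (hsw _ hr1).1 (hsw _ hr2).1 (hsw _ hr1).2 (hsw _ hr2).2 hr12)) ?_
    apply Finset.card_le_card
    intro x hx
    obtain ⟨-, hx1, hx2⟩ := Finset.mem_filter.1 hx
    refine Finset.mem_filter.2 ⟨Finset.mem_filter.2 ⟨Finset.mem_univ _, ?_, ?_⟩, ?_⟩
    · rw [hx1]; exact (hsw _ hr1).1
    · rw [hx2]; exact (hsw _ hr2).1
    · rw [hx1, hx2]
  calc Sw.offDiag.card ^ 2 * 4 * (m - 4).factorial =
      ∑ q ∈ Sw.offDiag, Sw.offDiag.card * (4 * (m - 4).factorial) := by
        rw [Finset.sum_const, smul_eq_mul]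
        ring
    _ ≤ _ := Finset.sum_le_sum h2

end count

/-- Module UB2. -/
theorem pUB2 : StUB2 := by
  classical
  intro m H hm hH
  have h1 := first_moment H
  have h2 := second_moment hm H hH
  have h3 := Finset.sum_le_sum (s := Finset.univ) (fun x _ => pointwise H hH x)
  rw [Finset.sum_add_distrib] at h3
  have h4 : ∑ x : Perm (Fin m), (if Bad H x then 1 else 0) = bad H := by
    unfold bad
    rw [← Finset.card_filter, Nat.card_eq_fintype_card, Fintype.card_subtype]
  rw [h4] at h3
  have h5 := h3.trans h1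
  omega

end Pool.Agent.Helper74.SA
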